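import Mathlib
import Pool.Agent.H16.SubCF

set_option autoImplicit false

namespace Pool.Agent.Results.MP_88f7c7_lc.Undecidable

/-- There is a substitution `τ` on a finite alphabet for which no algorithm decides, given a context-free grammar
(a finite list of rules, nonterminals in `ℕ`, start symbol `0`), whether some generated word occurs in a point of
the subshift `X_τ`. -/
theorem result : ∃ (k : ℕ) (τ : Fin k → List (Fin k)), ¬ ComputablePred fun R : List (ℕ × List (Fin k ⊕ ℕ)) =>
    ∃ w ∈ (ContextFreeGrammar.mk ℕ 0 (R.map fun r =>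
        (⟨r.1, r.2.map (Sum.elim Symbol.terminal Symbol.nonterminal)⟩ : ContextFreeRule (Fin k) ℕ)).toFinset).language,
      ∃ x : ℤ → Fin k,
        (∀ (i : ℤ) (n : ℕ), ∃ (m : ℕ) (a : Fin k),
          ((List.range n).map fun j : ℕ => x (i + j)) <:+: (fun u : List (Fin k) => u.flatMap τ)^[m] [a]) ∧
        ∃ i : ℤ, w = (List.range w.length).map fun j : ℕ => x (i + j) :=
  Pool.Agent.H16.SubCF.main

end Pool.Agent.Results.MP_88f7c7_lc.Undecidable
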